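import Mathlib
import Pool.Agent.Lib.MP_4e4ac8_an.Finite

set_option autoImplicit false

namespace Pool.Agent.Results.MP_4e4ac8_an.FiniteSymmetry

open Pool.Agent.Lib.MP_4e4ac8_an

/-- A nonempty closed Levi-flat hypersurface of class C^3 in the projective plane (given by its
cone `S`) is preserved by only finitely many projective transformations. -/
theorem result (S : Set (Fin 3 → ℂ)) (hne : S.Nonempty) (h0 : (0 : Fin 3 → ℂ) ∉ S)
    (hcl : IsClosed (insert 0 S)) (hcone : ∀ z ∈ S, ∀ c : ℂ, c ≠ 0 → c • z ∈ S)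
    (hloc : ∀ p ∈ S, ∃ U : Set (Fin 3 → ℂ), IsOpen U ∧ p ∈ U ∧ ∃ r : (Fin 3 → ℂ) → ℝ,
      ContDiffOn ℝ 3 r U ∧
      (∀ q ∈ U, q ∈ S ↔ r q = 0) ∧
      ∀ q ∈ U ∩ S, fderiv ℝ r q ≠ 0 ∧
        ∀ ξ : Fin 3 → ℂ, fderiv ℝ r q ξ = 0 → fderiv ℝ r q (Complex.I • ξ) = 0 →
          iteratedFDeriv ℝ 2 r q ![ξ, ξ]
            + iteratedFDeriv ℝ 2 r q ![Complex.I • ξ, Complex.I • ξ] = 0) :
    Set.Finite (Matrix.ProjGenLinGroup.mk '' {g : Matrix.GeneralLinearGroup (Fin 3) ℂ |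
      (fun z => (g : Matrix (Fin 3) (Fin 3) ℂ).mulVec z) '' S = S}) := by
  have hS : LF S := ⟨hne, h0, hcl, hcone, fun p hp => by
    obtain ⟨U, a, b, r, c, d, e⟩ := hloc p hp
    refine ⟨U, r, b, a, c, d, fun q h1 h2 => (e q ⟨h1, h2⟩).1, fun q h1 h2 ξ h3 h4 => ?_⟩
    simpa [iteratedFDeriv_two_apply] using (e q ⟨h1, h2⟩).2 ξ h3 h4⟩
  obtain ⟨T, hT⟩ := hS.finite
  let A : (E →L[ℂ] E) → Set (Matrix.ProjGenLinGroup (Fin 3) ℂ) := fun t =>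
    Matrix.ProjGenLinGroup.mk '' {g : Matrix.GeneralLinearGroup (Fin 3) ℂ |
      ∃ c : ℂ, ∀ v, (g : Matrix (Fin 3) (Fin 3) ℂ).mulVec v = c • t v}
  have inv1 : ∀ (g : Matrix.GeneralLinearGroup (Fin 3) ℂ) (v : E),
      (g : Matrix (Fin 3) (Fin 3) ℂ).mulVec
        (((g⁻¹ : Matrix.GeneralLinearGroup (Fin 3) ℂ) : Matrix (Fin 3) (Fin 3) ℂ).mulVec v) = v := by
    intro g v
    rw [Matrix.mulVec_mulVec, Units.mul_inv, Matrix.one_mulVec]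
  have inv2 : ∀ (g : Matrix.GeneralLinearGroup (Fin 3) ℂ) (v : E),
      ((g⁻¹ : Matrix.GeneralLinearGroup (Fin 3) ℂ) : Matrix (Fin 3) (Fin 3) ℂ).mulVec
        ((g : Matrix (Fin 3) (Fin 3) ℂ).mulVec v) = v := by
    intro g v
    rw [Matrix.mulVec_mulVec, Units.inv_mul, Matrix.one_mulVec]
  have nz : ∀ (g : Matrix.GeneralLinearGroup (Fin 3) ℂ) (t : E →L[ℂ] E) (c : ℂ),
      (∀ v, (g : Matrix (Fin 3) (Fin 3) ℂ).mulVec v = c • t v) → c ≠ 0 := by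
    rintro g t c h rfl
    have := inv2 g (Pi.single 0 1)
    rw [h, zero_smul, Matrix.mulVec_zero] at this
    simpa using congrFun this 0
  have hA : ∀ t, (A t).Subsingleton := by
    rintro t _ ⟨g1, ⟨c1, h1⟩, rfl⟩ _ ⟨g2, ⟨c2, h2⟩, rfl⟩
    have n1 := nz g1 t c1 h1
    refine Matrix.ProjGenLinGroup.mk_eq_mk_iff.2
      ⟨Units.mk0 (c2 / c1) (div_ne_zero (nz g2 t c2 h2) n1), Units.ext ?_⟩
    refine Matrix.ext_of_mulVec_single fun i => ?_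
    rw [Units.val_mul, ← Matrix.mulVec_mulVec, h2, h1]
    simp only [Matrix.GeneralLinearGroup.coe_scalar, Units.val_mk0, Matrix.scalar_apply,
      Matrix.diagonal_const_mulVec, map_smul, smul_smul]
    rw [mul_div_cancel₀ _ n1]
  refine (T.finite_toSet.biUnion fun t _ => (hA t).finite).subset ?_
  rintro _ ⟨g, hg, rfl⟩
  have hg' : (fun z => (g : Matrix (Fin 3) (Fin 3) ℂ).mulVec z) '' S = S := hg
  obtain ⟨t, ht, c, hc⟩ := hT (Matrix.mulVecLin (g : Matrix (Fin 3) (Fin 3) ℂ)).toContinuousLinearMap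
    (Matrix.mulVecLin ((g⁻¹ : Matrix.GeneralLinearGroup (Fin 3) ℂ) :
      Matrix (Fin 3) (Fin 3) ℂ)).toContinuousLinearMap (inv1 g) (inv2 g)
    (fun z hz => hg' ▸ ⟨z, hz, rfl⟩) (fun z hz => by
      obtain ⟨y, hy, rfl⟩ := hg'.symm ▸ hz
      have := inv2 g y
      rw [← this] at hy
      exact hy)
  exact Set.mem_biUnion ht ⟨g, ⟨c, hc⟩, rfl⟩

end Pool.Agent.Results.MP_4e4ac8_an.FiniteSymmetry
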