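import Mathlib
import Pool.Agent.Lib.MP_4e4ac8_an.LV.Chart

set_option autoImplicit false

namespace Pool.Agent.Results.MP_4e4ac8_an.NoLeviFlat

open Pool.Agent.Lib.MP_4e4ac8_an.LV

/-- The complex projective plane contains no smooth Levi-flat hypersurface.  `M` is a set of points
of the plane whose cone is closed; `W j` is the set of affine coordinates of its points in the
`j`-th standard chart.  If near each of its points `W j` is the zero set of a smooth function with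
nonzero differential and with Levi form vanishing on complex tangent vectors, `M` is empty. -/
theorem result (M : Set (Projectivization ℂ (Fin 3 → ℂ)))
    (hcl : IsClosed (insert 0 {x : Fin 3 → ℂ | ∃ h : x ≠ 0, Projectivization.mk ℂ x h ∈ M}))
    (W : Fin 3 → Set (Fin 2 → ℂ))
    (hW : ∀ j z, z ∈ W j ↔ ∃ h : (Fin.insertNth j (1 : ℂ) z : Fin 3 → ℂ) ≠ 0,
      Projectivization.mk ℂ _ h ∈ M)
    (hloc : ∀ j, ∀ z ∈ W j, ∃ U : Set (Fin 2 → ℂ), IsOpen U ∧ z ∈ U ∧ ∃ r : (Fin 2 → ℂ) → ℝ,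
      ContDiffOn ℝ ((⊤ : ℕ∞) : WithTop ℕ∞) r U ∧ (∀ w ∈ U, w ∈ W j ↔ r w = 0) ∧
      ∀ w ∈ U ∩ W j, fderiv ℝ r w ≠ 0 ∧
        ∀ ξ : Fin 2 → ℂ, fderiv ℝ r w ξ = 0 → fderiv ℝ r w (Complex.I • ξ) = 0 →
          iteratedFDeriv ℝ 2 r w ![ξ, ξ]
            + iteratedFDeriv ℝ 2 r w ![Complex.I • ξ, Complex.I • ξ] = 0) :
    M = ∅ := by
  by_contra hne
  obtain ⟨m, hm⟩ := Set.nonempty_iff_ne_empty.2 hne
  have cone : ∀ (z : Fin 3 → ℂ) (c : ℂ), c ≠ 0 → (∃ h : z ≠ 0, Projectivization.mk ℂ z h ∈ M) →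
      ∃ h : c • z ≠ 0, Projectivization.mk ℂ (c • z) h ∈ M := fun z c c0 ⟨h, hz⟩ =>
    ⟨smul_ne_zero c0 h, by
      rwa [(Projectivization.mk_eq_mk_iff' ℂ _ _ (smul_ne_zero c0 h) h).2 ⟨c, rfl⟩]⟩
  refine no_hyp {x | ∃ h : x ≠ 0, Projectivization.mk ℂ x h ∈ M}
    ⟨⟨m.rep, m.rep_nonzero, by rwa [Projectivization.mk_rep]⟩, fun ⟨h, _⟩ => h rfl, hcl,
      fun z hz c c0 => cone z c c0 hz, fun p hp => ?_⟩
  obtain ⟨j, hj⟩ : ∃ j, p j ≠ 0 := Function.ne_iff.1 hp.1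
  let τ : (Fin 3 → ℂ) → Fin 2 → ℂ := fun x i => x (j.succAbove i) / x j
  have key : ∀ x : Fin 3 → ℂ, x j ≠ 0 →
      (τ x ∈ W j ↔ ∃ h : x ≠ 0, Projectivization.mk ℂ x h ∈ M) := fun x hx => by
    have e : (Fin.insertNth j (1 : ℂ) (τ x) : Fin 3 → ℂ) = (x j)⁻¹ • x := by
      rw [Fin.insertNth_eq_iff]
      exact ⟨by simp [hx], funext fun i => by simp [τ, Fin.removeNth, div_eq_inv_mul]⟩
    rw [hW, e]
    refine ⟨fun h => ?_, cone x _ (inv_ne_zero hx)⟩
    simpa [smul_smul, hx] using cone _ _ hx h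
  have an : ∀ x : Fin 3 → ℂ, x j ≠ 0 → AnalyticAt ℂ τ x := fun x hx =>
    analyticAt_pi_iff.2 fun i => ((ContinuousLinearMap.proj (R := ℂ) (φ := fun _ : Fin 3 => ℂ)
      (j.succAbove i)).analyticAt x).div
        ((ContinuousLinearMap.proj (R := ℂ) (φ := fun _ : Fin 3 => ℂ) j).analyticAt x) hx
  obtain ⟨U, u1, u2, r, r1, r2, r3⟩ := hloc j (τ p) ((key p hj).2 hp)
  have o1 : IsOpen {x : Fin 3 → ℂ | x j ≠ 0} := isOpen_ne_fun (continuous_apply j) continuous_const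
  have c1 : ContinuousOn τ {x | x j ≠ 0} := fun x hx => (an x hx).continuousAt.continuousWithinAt
  refine ⟨{x | x j ≠ 0} ∩ τ ⁻¹' U, c1.isOpen_inter_preimage o1 u1, ⟨hj, u2⟩, r ∘ τ,
    r1.comp (fun x hx => (an x hx.1).restrictScalars.contDiffAt.contDiffWithinAt) fun _ h => h.2,
    fun q hq => (key q hq.1).symm.trans (r2 _ hq.2), fun q hq => ?_⟩
  obtain ⟨s1, s2⟩ := r3 (τ q) ⟨hq.1.2, (key q hq.1.1).2 hq.2⟩
  have rq : ContDiffAt ℝ 2 r (τ q) := contDiffAt_infty.1 (r1.contDiffAt (u1.mem_nhds hq.1.2)) 2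
  have dτ := (an q hq.1.1).differentiableAt.hasFDerivAt
  have d := ((rq.differentiableAt two_ne_zero).hasFDerivAt.comp q (dτ.restrictScalars ℝ)).fderiv
  refine ⟨fun h => s1 (ContinuousLinearMap.ext fun v => ?_), fun ξ h1 h2 => ?_⟩
  · let w : Fin 3 → ℂ := q j • Fin.insertNth j (0 : ℂ) v
    have l : HasDerivAt (fun s : ℂ => q + s • w) w 0 := by
      simpa using ((hasDerivAt_id (0 : ℂ)).smul_const w).const_add q
    have l1 := HasFDerivAt.comp_hasDerivAt_of_eq (0 : ℂ) dτ l (by simp)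
    have l2 : HasDerivAt (τ ∘ fun s : ℂ => q + s • w) v 0 := by
      have : (τ ∘ fun s : ℂ => q + s • w) = fun s => τ q + s • v := by
        funext s i
        have := hq.1.1
        simp only [Set.mem_ofPred_eq] at this
        simp [τ, w]; field_simp
      rw [this]
      simpa using ((hasDerivAt_id (0 : ℂ)).smul_const v).const_add (τ q)
    have := congrArg (fun L : (Fin 3 → ℂ) →L[ℝ] ℝ => L w) (d.symm.trans h)
    simpa [l1.unique l2] using this
  · rw [d] at h1 h2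
    have := s2 (fderiv ℂ τ q ξ) (by simpa using h1) (by simpa using h2)
    simp only [iteratedFDeriv_two_apply, Matrix.cons_val_zero, Matrix.cons_val_one] at this ⊢
    rw [Chart.levi_pull (an q hq.1.1) rq, this]

end Pool.Agent.Results.MP_4e4ac8_an.NoLeviFlat
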