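import Mathlib
import Pool.Agent.Lib.MP_4e4ac8_an.CFin

set_option autoImplicit false

namespace Pool.Agent.Results.MP_4e4ac8_an.RicciBound

open Pool.Agent.Lib.MP_4e4ac8_an ComplexConjugate

/-- The standard Hermitian product on `ℂ^3`. -/
noncomputable def herm (x y : Fin 3 → ℂ) : ℂ := ∑ i, x i * conj (y i)

/-- The real second derivative of `r` at `q` in the directions `u`, `v`. -/
noncomputable def hess (r : (Fin 3 → ℂ) → ℝ) (q u v : Fin 3 → ℂ) : ℝ :=
  iteratedFDeriv ℝ 2 r q ![u, v]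

/-- `r` is a `C^3` defining function of `S` on the open set `U`, with nonzero differential on `S`
and with Levi form vanishing on complex tangent vectors. -/
def LeviFlatOn (S U : Set (Fin 3 → ℂ)) (r : (Fin 3 → ℂ) → ℝ) : Prop :=
  IsOpen U ∧ ContDiffOn ℝ 3 r U ∧ (∀ q ∈ U, q ∈ S ↔ r q = 0) ∧
    ∀ q ∈ U ∩ S, fderiv ℝ r q ≠ 0 ∧
      ∀ ξ : Fin 3 → ℂ, fderiv ℝ r q ξ = 0 → fderiv ℝ r q (Complex.I • ξ) = 0 →
        hess r q ξ ξ + hess r q (Complex.I • ξ) (Complex.I • ξ) = 0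

/-- `e` and `n` are unit vectors, orthogonal to `p` and to each other for the Hermitian product;
`e` is complex tangent to the level set of `r` at `p` and `n` is normal to it. -/
def Frame (r : (Fin 3 → ℂ) → ℝ) (p e n : Fin 3 → ℂ) : Prop :=
  herm e e = 1 ∧ herm n n = 1 ∧ herm e p = 0 ∧ herm n p = 0 ∧ herm n e = 0 ∧
    fderiv ℝ r p e = 0 ∧ fderiv ℝ r p (Complex.I • e) = 0 ∧
    fderiv ℝ r p (Complex.I • n) = 0 ∧ fderiv ℝ r p n ≠ 0

/-- A nonempty closed Levi-flat hypersurface of class C^3 in the projective plane (given by its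
cone `S` and local defining functions `r p` near each point `p`) has a point where the mixed part
of the second fundamental form has squared length at least 24. -/
theorem result (S : Set (Fin 3 → ℂ)) (hne : S.Nonempty) (h0 : (0 : Fin 3 → ℂ) ∉ S)
    (hcl : IsClosed (insert 0 S)) (hcone : ∀ z ∈ S, ∀ c : ℂ, c ≠ 0 → c • z ∈ S)
    (U : (Fin 3 → ℂ) → Set (Fin 3 → ℂ)) (r : (Fin 3 → ℂ) → (Fin 3 → ℂ) → ℝ)
    (hloc : ∀ p ∈ S, p ∈ U p ∧ LeviFlatOn S (U p) (r p)) :
    ∃ p ∈ S, ∃ e n : Fin 3 → ℂ, Frame (r p) p e n ∧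
      24 * fderiv ℝ (r p) p n ^ 2 ≤ (herm p p).re *
        (hess (r p) p e (Complex.I • n) ^ 2 + hess (r p) p (Complex.I • e) (Complex.I • n) ^ 2) := by
  have hl : ∀ p ∈ S, LocDef S (U p) (r p) := fun p hp => by
    obtain ⟨-, a, c, d, e⟩ := hloc p hp
    refine ⟨a, c, d, fun q h1 h2 => (e q ⟨h1, h2⟩).1, fun q h1 h2 ξ h3 h4 => ?_⟩
    simpa [hess, iteratedFDeriv_two_apply] using (e q ⟨h1, h2⟩).2 ξ h3 h4
  have hS : LF S := ⟨hne, h0, hcl, hcone, fun p hp => ⟨U p, r p, (hloc p hp).1, hl p hp⟩⟩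
  have e2 : ∀ x y : Fin 3 → ℂ, herm x y = hm x y := fun x y => by
    simp [herm, hm, Fin.sum_univ_three]
  by_contra hno
  refine hS.curv_strict fun p hp => ⟨U p, r p, (hloc p hp).1, hl p hp, ?_⟩
  intro e n a1 a2 a3 a4 a5 a6 a7 a8 a9
  by_contra hc
  refine hno ⟨p, hp, e, n, ⟨by rw [e2, hm_self, a1, Complex.ofReal_one],
    by rw [e2, hm_self, a2, Complex.ofReal_one], by rw [e2, a3], by rw [e2, a4],
    by rw [e2, a5], a6, a7, a8, a9⟩, ?_⟩
  rw [e2, hm_self, Complex.ofReal_re]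
  simpa [hess, iteratedFDeriv_two_apply] using not_lt.1 hc

end Pool.Agent.Results.MP_4e4ac8_an.RicciBound
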